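import Pool.Agent.H447.QR.Stm

/-! Project QR (helper447), task EQ (helper286): the bounded test for representing a point. -/

set_option autoImplicit false

open WeierstrassCurve

namespace Pool.Agent.H286.QR.EQ

open Pool.Agent.H447.QR

private theorem dvd_bound (z x F G : ℤ) (k : ℕ) (hcop : IsCoprime z x) (h : F * x ^ k + z * G = 0)
    (hF : F ≠ 0) : z.natAbs ≤ F.natAbs := by
  have h1 : z ∣ F * x ^ k := ⟨-G, by linarith⟩
  have h2 : z ∣ F := (hcop.pow_right).dvd_of_dvd_mul_right h1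
  exact Int.natAbs_le_of_dvd_ne_zero h2 hF

private theorem small_z (F0 F1 F2 F3 F4 x z : ℤ) (M : ℕ) (hcop : IsCoprime z x) (hz : z ≠ 0)
    (h : F0 * x ^ 4 + F1 * x ^ 3 * z + F2 * x ^ 2 * z ^ 2 + F3 * x * z ^ 3 + F4 * z ^ 4 = 0)
    (hne : ¬ (F0 = 0 ∧ F1 = 0 ∧ F2 = 0 ∧ F3 = 0 ∧ F4 = 0))
    (h0 : F0.natAbs ≤ M) (h1 : F1.natAbs ≤ M) (h2 : F2.natAbs ≤ M) (h3 : F3.natAbs ≤ M) :
    z.natAbs ≤ M := by
  by_cases e0 : F0 = 0
  · have g1 : F1 * x ^ 3 + z * (F2 * x ^ 2 + F3 * x * z + F4 * z ^ 2) = 0 := by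
      have : z * (F1 * x ^ 3 + z * (F2 * x ^ 2 + F3 * x * z + F4 * z ^ 2)) = 0 := by
        rw [e0] at h
        linarith
      exact (mul_eq_zero.mp this).resolve_left hz
    by_cases e1 : F1 = 0
    · have g2 : F2 * x ^ 2 + z * (F3 * x + F4 * z) = 0 := by
        have : z * (F2 * x ^ 2 + z * (F3 * x + F4 * z)) = 0 := by
          rw [e1] at g1
          linarith
        exact (mul_eq_zero.mp this).resolve_left hz
      by_cases e2 : F2 = 0
      · have g3 : F3 * x ^ 1 + z * F4 = 0 := by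
          have : z * (F3 * x ^ 1 + z * F4) = 0 := by
            rw [e2] at g2
            linarith
          exact (mul_eq_zero.mp this).resolve_left hz
        by_cases e3 : F3 = 0
        · exfalso
          rw [e3] at g3
          have g4 : z * F4 = 0 := by linarith
          exact hne ⟨e0, e1, e2, e3, (mul_eq_zero.mp g4).resolve_left hz⟩
        · exact (dvd_bound z x F3 F4 1 hcop g3 e3).trans h3
      · exact (dvd_bound z x F2 _ 2 hcop g2 e2).trans h2
    · exact (dvd_bound z x F1 _ 3 hcop g1 e1).trans h1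
  · refine (dvd_bound z x F0 (F1 * x ^ 3 + F2 * x ^ 2 * z + F3 * x * z ^ 2 + F4 * z ^ 3) 4 hcop ?_
      e0).trans h0
    linarith

private theorem scale (x z : ℚ) (h : x ≠ 0 ∨ z ≠ 0) :
    ∃ (x' z' : ℤ) (c : ℚ), c ≠ 0 ∧ IsCoprime x' z' ∧ x = c * x' ∧ z = c * z' := by
  have hx : (x.den : ℚ) ≠ 0 := by exact_mod_cast x.den_nz
  have hz : (z.den : ℚ) ≠ 0 := by exact_mod_cast z.den_nz
  have ex : (x.num : ℚ) = x * x.den := (Rat.mul_den_eq_num x).symm
  have ez : (z.num : ℚ) = z * z.den := (Rat.mul_den_eq_num z).symm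
  have hg : 0 < Int.gcd (x.num * z.den) (z.num * x.den) := by
    rcases h with h | h
    · exact Int.gcd_pos_of_ne_zero_left _ (mul_ne_zero (Rat.num_ne_zero.mpr h)
        (by exact_mod_cast z.den_nz))
    · exact Int.gcd_pos_of_ne_zero_right _ (mul_ne_zero (Rat.num_ne_zero.mpr h)
        (by exact_mod_cast x.den_nz))
  obtain ⟨m, n, h1, h2, h3⟩ := Int.exists_gcd_one hg
  set d := Int.gcd (x.num * z.den) (z.num * x.den) with hd
  have hd0 : (d : ℚ) ≠ 0 := by exact_mod_cast hg.ne'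
  have h2' : (x.num : ℚ) * z.den = m * d := by exact_mod_cast h2
  have h3' : (z.num : ℚ) * x.den = n * d := by exact_mod_cast h3
  refine ⟨m, n, d / (x.den * z.den), div_ne_zero hd0 (mul_ne_zero hx hz),
    Int.isCoprime_iff_gcd_eq_one.mpr h1, ?_, ?_⟩
  · rw [div_mul_eq_mul_div, eq_div_iff (mul_ne_zero hx hz)]
    rw [ex] at h2'
    linarith
  · rw [div_mul_eq_mul_div, eq_div_iff (mul_ne_zero hx hz)]
    rw [ez] at h3'
    linarith

private theorem v_cast (g : Qf ℤ) (x z : ℤ) : ((g.v x z : ℤ) : ℚ) = g.q.v x z := by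
  simp only [Qf.v, Qf.q]
  push_cast
  rfl

private theorem h4_cast (g : Qf ℤ) (x z : ℤ) : ((g.h4 x z : ℤ) : ℚ) = g.q.h4 x z := by
  simp only [Qf.h4, Qf.q]
  push_cast
  rfl

private theorem inv_cast (a b : ℤ) (g : Qf ℤ) (h : Inv a b g) : Inv (a : ℚ) (b : ℚ) g.q := by
  obtain ⟨h1, h2⟩ := h
  constructor
  · have : ((g.I : ℤ) : ℚ) = ((-48 * a : ℤ) : ℚ) := by rw [h1]
    simp only [Qf.I, Qf.q] at this ⊢
    push_cast at this
    exact this
  · have : ((g.J : ℤ) : ℚ) = ((-1728 * b : ℤ) : ℚ) := by rw [h2]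
    simp only [Qf.J, Qf.q] at this ⊢
    push_cast at this
    exact this

private theorem v_hom (g : Qf ℚ) (c x z : ℚ) : g.v (c * x) (c * z) = c ^ 4 * g.v x z := by
  simp only [Qf.v]
  ring

private theorem h4_hom (g : Qf ℚ) (c x z : ℚ) : g.h4 (c * x) (c * z) = c ^ 4 * g.h4 x z := by
  simp only [Qf.h4]
  ring

/-- The covariant `h4` is not proportional to the form. -/
private theorem h4_ne (nf' : S_NF) (c1 : S_COV1) (c2 : S_COV2) (a b : ℚ) (g : Qf ℚ) (X Y : ℚ)
    (h : (crv a b).toAffine.Nonsingular X Y) (hinv : Inv a b g)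
    (hrep : Rep a b g (Affine.Point.some X Y h)) (hF : ∀ x z : ℚ, g.h4 x z = 48 * X * g.v x z) :
    False := by
  obtain ⟨p, q, r, s, μ, hμ, he⟩ := nf' a b g X Y h hinv hrep
  obtain ⟨c11, -, -, -, c15, -⟩ := c1
  have hdet : p * s - q * r ≠ 0 := by
    intro h0
    rw [h0, mul_zero] at hμ
    exact zero_ne_one hμ
  have key : ∀ x z : ℚ, (nf a X Y).h4 x z = 48 * X * (nf a X Y).v x z := by
    intro x z
    rw [← he, (c15 _ _ _ _).1, (c15 _ _ _ _).2.2.2.1, (c2 g p q r s x z hdet).1, c11, hF]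
    have : μ ^ 2 * (p * s - q * r) ^ 2 = 1 := by
      rw [← mul_pow, hμ, one_pow]
    linear_combination (48 * X * g.v (p * x + q * z) (r * x + s * z) * μ ^ 2) * this
  have k1 := key 1 1
  have k2 := key 1 (-1)
  have k3 := key 1 2
  have k4 := key 1 (-2)
  simp only [nf, Qf.h4, Qf.v] at k1 k2 k3 k4
  have hY : Y = 0 := by linarith
  have hX : 3 * X ^ 2 + a = 0 := by
    rw [hY] at k1 k2 k3 k4
    linarith
  rw [Affine.nonsingular_iff] at h
  simp only [hY] at h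
  rcases h.2 with h2 | h2
  · apply h2
    simp only [mul_zero, zero_mul, add_zero]
    linarith
  · apply h2
    ring

private theorem coef_bound (N s r q w : ℤ) (hq : |q| ≤ 200 * N ^ 2) (hw : |w| ≤ N) :
    |s * q - 48 * r * w| ≤ (|s| + 48 * |r|) * (200 * N ^ 2 + N + 1) := by
  have hN : 0 ≤ N := (abs_nonneg w).trans hw
  have h1 : |s * q - 48 * r * w| ≤ |s| * |q| + 48 * (|r| * |w|) := by
    refine (abs_sub (s * q) (48 * r * w)).trans ?_
    rw [abs_mul, abs_mul, abs_mul]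
    have : |(48 : ℤ)| = 48 := rfl
    rw [this]
    linarith
  have h2 : |s| * |q| ≤ |s| * (200 * N ^ 2) := mul_le_mul_of_nonneg_left hq (abs_nonneg s)
  have h3 : |r| * |w| ≤ |r| * N := mul_le_mul_of_nonneg_left hw (abs_nonneg r)
  have h4 : 0 ≤ |s| * (N + 1) := mul_nonneg (abs_nonneg s) (by linarith)
  have h5 : 0 ≤ |r| * (200 * N ^ 2 + 1) := mul_nonneg (abs_nonneg r) (by positivity)
  linarith

private theorem prod_bound (N x y : ℤ) (hx : |x| ≤ N) (hy : |y| ≤ N) : |x * y| ≤ N ^ 2 := by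
  rw [abs_mul, sq]
  exact mul_le_mul hx hy (abs_nonneg y) ((abs_nonneg x).trans hx)

private theorem nat_bound (g : Qf ℤ) (s r q w : ℤ) (hq : |q| ≤ 200 * (g.n : ℤ) ^ 2)
    (hw : |w| ≤ (g.n : ℤ)) : (s * q - 48 * r * w).natAbs ≤ eqvBd g r s := by
  have h := coef_bound (g.n : ℤ) s r q w hq hw
  have h2 : (((s * q - 48 * r * w).natAbs : ℕ) : ℤ) ≤ ((eqvBd g r s : ℕ) : ℤ) := by
    rw [Int.natCast_natAbs]
    refine h.trans (le_of_eq ?_)
    unfold eqvBd
    push_cast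
    rfl
  exact_mod_cast h2

theorem t_EQ (mk : S_MK) (nf : S_NF) (c1 : S_COV1) (c2 : S_COV2) : S_EQ := by
  intro a b g r s hab hinv hs
  have habQ : 4 * (a : ℚ) ^ 3 + 27 * (b : ℚ) ^ 2 ≠ 0 := by exact_mod_cast hab
  have hinvQ := inv_cast a b g hinv
  have hsQ : (s : ℚ) ≠ 0 := by exact_mod_cast hs
  constructor
  · rintro ⟨X, Y, h, hX, hrep⟩
    have hrep' := hrep
    obtain ⟨x, z, y, X', Y', h', hy, hv, h4, h6, hP⟩ := hrep
    have hXX : X = X' := by
      injection hP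
    subst hXX
    have hxz : x ≠ 0 ∨ z ≠ 0 := by
      by_contra hcon
      push Not at hcon
      obtain ⟨h1, h2⟩ := hcon
      rw [h1, h2] at hv
      have : g.q.v 0 0 = 0 := by
        simp only [Qf.v]
        ring
      rw [this] at hv
      exact hy (pow_eq_zero_iff (two_ne_zero) |>.mp hv)
    obtain ⟨x', z', c, hc, hcop, ex, ez⟩ := scale x z hxz
    have hc4 : c ^ 4 ≠ 0 := pow_ne_zero _ hc
    rw [ex, ez, v_hom] at hv
    rw [ex, ez, h4_hom] at h4
    have hv' : (y / c ^ 2) ^ 2 = g.q.v x' z' := by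
      rw [div_pow, hv]
      field_simp
    have hne : g.q.v x' z' ≠ 0 := by
      rw [← hv']
      exact pow_ne_zero _ (div_ne_zero hy (pow_ne_zero _ hc))
    have hsq : IsSquare (((g.v x' z' : ℤ)) : ℚ) := by
      rw [v_cast]
      exact ⟨y / c ^ 2, by rw [← hv', sq]⟩
    rw [Rat.isSquare_intCast_iff] at hsq
    have hF : s * g.h4 x' z' = 48 * r * g.v x' z' := by
      have : (s : ℚ) * g.q.h4 x' z' = 48 * r * g.q.v x' z' := by
        have e1 : c ^ 4 * (g.q.h4 x' z' * s) = c ^ 4 * (48 * r * g.q.v x' z') := by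
          have e2 : X * s = r := by rw [hX]; field_simp
          rw [hv] at h4
          linear_combination (-(s : ℚ)) * h4 + 48 * c ^ 4 * g.q.v x' z' * e2
        have := mul_left_cancel₀ hc4 e1
        linarith
      rw [← v_cast, ← h4_cast] at this
      exact_mod_cast this
    have hFF : (s * (3 * g.B ^ 2 - 8 * g.A * g.C) - 48 * r * g.A) * x' ^ 4 +
        (s * (4 * (g.B * g.C - 6 * g.A * g.D)) - 48 * r * g.B) * x' ^ 3 * z' +
        (s * (2 * (2 * g.C ^ 2 - 24 * g.A * g.E - 3 * g.B * g.D)) - 48 * r * g.C) * x' ^ 2 * z' ^ 2 +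
        (s * (4 * (g.C * g.D - 6 * g.B * g.E)) - 48 * r * g.D) * x' * z' ^ 3 +
        (s * (3 * g.D ^ 2 - 8 * g.C * g.E) - 48 * r * g.E) * z' ^ 4 = 0 := by
      simp only [Qf.h4, Qf.v] at hF
      linear_combination hF
    have hne2 : ¬ (s * (3 * g.B ^ 2 - 8 * g.A * g.C) - 48 * r * g.A = 0 ∧
        s * (4 * (g.B * g.C - 6 * g.A * g.D)) - 48 * r * g.B = 0 ∧
        s * (2 * (2 * g.C ^ 2 - 24 * g.A * g.E - 3 * g.B * g.D)) - 48 * r * g.C = 0 ∧
        s * (4 * (g.C * g.D - 6 * g.B * g.E)) - 48 * r * g.D = 0 ∧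
        s * (3 * g.D ^ 2 - 8 * g.C * g.E) - 48 * r * g.E = 0) := by
      rintro ⟨f0, f1, f2, f3, f4⟩
      refine h4_ne nf c1 c2 a b g.q X Y h hinvQ hrep' ?_
      intro u w
      have f0' : (s : ℚ) * (3 * g.B ^ 2 - 8 * g.A * g.C) - 48 * r * g.A = 0 := by exact_mod_cast f0
      have f1' : (s : ℚ) * (4 * (g.B * g.C - 6 * g.A * g.D)) - 48 * r * g.B = 0 := by
        exact_mod_cast f1
      have f2' : (s : ℚ) * (2 * (2 * g.C ^ 2 - 24 * g.A * g.E - 3 * g.B * g.D)) -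
        48 * r * g.C = 0 := by exact_mod_cast f2
      have f3' : (s : ℚ) * (4 * (g.C * g.D - 6 * g.B * g.E)) - 48 * r * g.D = 0 := by
        exact_mod_cast f3
      have f4' : (s : ℚ) * (3 * g.D ^ 2 - 8 * g.C * g.E) - 48 * r * g.E = 0 := by exact_mod_cast f4
      have e2 : X * s = r := by rw [hX]; field_simp
      apply mul_left_cancel₀ hsQ
      simp only [Qf.h4, Qf.v, Qf.q]
      linear_combination u ^ 4 * f0' + u ^ 3 * w * f1' + u ^ 2 * w ^ 2 * f2' + u * w ^ 3 * f3' +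
        w ^ 4 * f4' - 48 * (g.A * u ^ 4 + g.B * u ^ 3 * w + g.C * u ^ 2 * w ^ 2 +
          g.D * u * w ^ 3 + g.E * w ^ 4) * e2
    have hA : |g.A| ≤ (g.n : ℤ) := by
      have := Int.natCast_natAbs g.A
      unfold Qf.n
      omega
    have hB : |g.B| ≤ (g.n : ℤ) := by
      have := Int.natCast_natAbs g.B
      unfold Qf.n
      omega
    have hC : |g.C| ≤ (g.n : ℤ) := by
      have := Int.natCast_natAbs g.C
      unfold Qf.n
      omega
    have hD : |g.D| ≤ (g.n : ℤ) := by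
      have := Int.natCast_natAbs g.D
      unfold Qf.n
      omega
    have hE : |g.E| ≤ (g.n : ℤ) := by
      have := Int.natCast_natAbs g.E
      unfold Qf.n
      omega
    have hBB := abs_le.mp (prod_bound _ _ _ hB hB)
    have hAC := abs_le.mp (prod_bound _ _ _ hA hC)
    have hBC := abs_le.mp (prod_bound _ _ _ hB hC)
    have hAD := abs_le.mp (prod_bound _ _ _ hA hD)
    have hCC := abs_le.mp (prod_bound _ _ _ hC hC)
    have hAE := abs_le.mp (prod_bound _ _ _ hA hE)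
    have hBD := abs_le.mp (prod_bound _ _ _ hB hD)
    have hCD := abs_le.mp (prod_bound _ _ _ hC hD)
    have hBE := abs_le.mp (prod_bound _ _ _ hB hE)
    have hDD := abs_le.mp (prod_bound _ _ _ hD hD)
    have hCE := abs_le.mp (prod_bound _ _ _ hC hE)
    have hN2 : 0 ≤ (g.n : ℤ) ^ 2 := sq_nonneg _
    have b0 := nat_bound g s r (3 * g.B ^ 2 - 8 * g.A * g.C) g.A
      (abs_le.mpr ⟨by linarith, by linarith⟩) hA
    have b1 := nat_bound g s r (4 * (g.B * g.C - 6 * g.A * g.D)) g.B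
      (abs_le.mpr ⟨by linarith, by linarith⟩) hB
    have b2 := nat_bound g s r (2 * (2 * g.C ^ 2 - 24 * g.A * g.E - 3 * g.B * g.D)) g.C
      (abs_le.mpr ⟨by linarith, by linarith⟩) hC
    have b3 := nat_bound g s r (4 * (g.C * g.D - 6 * g.B * g.E)) g.D
      (abs_le.mpr ⟨by linarith, by linarith⟩) hD
    have b4 := nat_bound g s r (3 * g.D ^ 2 - 8 * g.C * g.E) g.E
      (abs_le.mpr ⟨by linarith, by linarith⟩) hE
    have hM1 : 1 ≤ eqvBd g r s := by
      unfold eqvBd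
      have : 0 < s.natAbs := Int.natAbs_pos.mpr hs
      exact Nat.succ_le_of_lt (Nat.mul_pos (by omega) (by omega))
    have hxb : x'.natAbs ≤ eqvBd g r s := by
      by_cases hx0 : x' = 0
      · rw [hx0]
        exact Nat.zero_le _
      · refine small_z _ _ _ _ (s * (3 * g.B ^ 2 - 8 * g.A * g.C) - 48 * r * g.A) z' x' _ hcop hx0
          ?_ ?_ b4 b3 b2 b1
        · linarith
        · rintro ⟨f4, f3, f2, f1, f0⟩
          exact hne2 ⟨f0, f1, f2, f3, f4⟩
    have hzb : z'.natAbs ≤ eqvBd g r s := by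
      by_cases hz0 : z' = 0
      · rw [hz0]
        exact Nat.zero_le _
      · exact small_z _ _ _ _ _ x' z' _ hcop.symm hz0 hFF hne2 b0 b1 b2 b3
    refine ⟨x', z', hxb, hzb, ?_, ?_, hF⟩
    · intro h0
      apply hne
      rw [← v_cast, h0]
      rfl
    · obtain ⟨y', hy'⟩ := hsq
      exact ⟨y', by rw [sq, hy']⟩
  · rintro ⟨x, z, -, -, hv, ⟨y, hy⟩, he⟩
    have hvQ : g.q.v x z ≠ 0 := by
      rw [← v_cast]
      exact_mod_cast hv
    have hyQ : (y : ℚ) ^ 2 = g.q.v x z := by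
      rw [← v_cast, ← hy]
      push_cast
      rfl
    have hy0 : (y : ℚ) ≠ 0 := by
      intro h0
      rw [h0] at hyQ
      exact hvQ (by rw [← hyQ]; ring)
    obtain ⟨X, Y, h, h1, h2⟩ := mk a b g.q x z y habQ hinvQ hy0 hyQ
    refine ⟨X, Y, h, ?_, x, z, y, X, Y, h, hy0, hyQ, h1, h2, rfl⟩
    have heQ : (s : ℚ) * g.q.h4 x z = 48 * r * g.q.v x z := by
      rw [← v_cast, ← h4_cast]
      exact_mod_cast he
    rw [← h1, ← hyQ] at heQ
    have hy2 : (48 : ℚ) * y ^ 2 ≠ 0 := mul_ne_zero (by norm_num) (pow_ne_zero _ hy0)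
    rw [eq_div_iff hsQ]
    apply mul_left_cancel₀ hy2
    linear_combination heQ

end Pool.Agent.H286.QR.EQ
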